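import Mathlib

set_option autoImplicit false

namespace Pool.Agent.helper14.Tower

open Function

/-! ## The game -/

/-- The growth step: the edges of the matching `M` are removed from `G` and a new vertex (`none`)
is joined to every endpoint of `M`. -/
def grow {V : Type} (G : SimpleGraph V) (M : G.Subgraph) : SimpleGraph (Option V) where
  Adj
    | some u, some v => G.Adj u v ∧ ¬ M.Adj u v
    | some z, none => z ∈ M.verts
    | none, some z => z ∈ M.verts
    | none, none => False
  symm := ⟨by
    rintro (_ | u) (_ | v) h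
    · exact h
    · exact h
    · exact h
    · exact ⟨h.1.symm, fun h' => h.2 h'.symm⟩⟩
  loopless := ⟨by
    rintro (_ | u) h
    · exact h
    · exact G.loopless.irrefl _ h.1⟩

/-- `CanForce H t V G`: starting from the graph `G`, Builder has a strategy that guarantees a copy
of `H` after exactly `t` rounds, whatever Chooser does. -/
def CanForce {α : Type} (H : SimpleGraph α) : ℕ → ∀ V : Type, SimpleGraph V → Prop
  | 0, _, G => H.IsContained G
  | t + 1, V, G => ∃ M : G.Subgraph, M.IsMatching ∧
      ∃ G₀ G₁ : SimpleGraph (Option V), Disjoint G₀ G₁ ∧ G₀ ⊔ G₁ = grow G M ∧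
        CanForce H t (Option V) G₀ ∧ CanForce H t (Option V) G₁

/-- The forcing time of `H` from `G`. -/
noncomputable def forcingTime {α V : Type} (H : SimpleGraph α) (G : SimpleGraph V) : ℕ∞ :=
  ⨅ (t : ℕ) (_ : CanForce H t V G), (t : ℕ∞)

/-- `rho k`: the minimum of the forcing times of `K_k` from finite triangle-free graphs. -/
noncomputable def rho (k : ℕ) : ℕ∞ :=
  ⨅ (V : Type) (_ : Finite V) (G : SimpleGraph V) (_ : G.CliqueFree 3),
    forcingTime (⊤ : SimpleGraph (Fin k)) G

/-! ## The numbers in the bounds -/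

/-- The upper bound: `1, 3, 6` for `k = 3, 4, 5`, and then `U (k + 1) = U k + 2 ^ U k`. -/
def upper : ℕ → ℕ
  | 0 => 0
  | 1 => 0
  | 2 => 0
  | 3 => 1
  | 4 => 3
  | 5 => 6
  | k + 6 => upper (k + 5) + 2 ^ upper (k + 5)

/-- The lengths of the blocks: `2, 3, 7, 127, ...`. -/
def z : ℕ → ℕ
  | 0 => 2
  | i + 1 => 2 ^ z i - 1

/-- The total length of the last `i` blocks. -/
def Z : ℕ → ℕ
  | 0 => 0
  | i + 1 => Z i + z i

/-- The lower bound: `1, 3, 6, 13, 140` for `k = 3, ..., 7`. -/
def lower (k : ℕ) : ℕ := 1 + Z (k - 3)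

/-- The tower function `1, 2, 4, 16, 65536, ...`. -/
def tower : ℕ → ℕ
  | 0 => 1
  | n + 1 => 2 ^ tower n

end Pool.Agent.helper14.Tower
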