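import Pool.Agent.helper14.Tower.Defs

set_option autoImplicit false

namespace Pool.Agent.helper14.Tower

open Function

/-! ## Monotonicity -/

/-- There is an injective homomorphism. -/
def Emb {V V' : Type} (G : SimpleGraph V) (G' : SimpleGraph V') : Prop :=
  ∃ f : V → V', Injective f ∧ ∀ u v, G.Adj u v → G'.Adj (f u) (f v)

theorem Emb.isContained {V V' : Type} {G : SimpleGraph V} {G' : SimpleGraph V'} (h : Emb G G') :
    G.IsContained G' := by
  obtain ⟨f, hf, h⟩ := h
  exact ⟨⟨⟨f, fun {u v} huv => h u v huv⟩, hf⟩⟩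

theorem Emb.refl {V : Type} (G : SimpleGraph V) : Emb G G := ⟨id, injective_id, fun _ _ h => h⟩

theorem Emb.trans {V V' V'' : Type} {G : SimpleGraph V} {G' : SimpleGraph V'}
    {G'' : SimpleGraph V''} (h : Emb G G') (h' : Emb G' G'') : Emb G G'' := by
  obtain ⟨f, hf, h⟩ := h
  obtain ⟨g, hg, h'⟩ := h'
  exact ⟨g ∘ f, hg.comp hf, fun u v huv => h' _ _ (h _ _ huv)⟩

theorem canForce_mono {α : Type} (H : SimpleGraph α) : ∀ (t : ℕ) {V V' : Type}
    {G : SimpleGraph V} {G' : SimpleGraph V'}, Emb G G' → CanForce H t V G →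
    CanForce H t V' G' := by
  intro t
  induction t with
  | zero =>
    intro V V' G G' h hG
    exact SimpleGraph.IsContained.trans hG h.isContained
  | succ t ih =>
    intro V V' G G' h hG
    obtain ⟨f, hf, hfG⟩ := h
    obtain ⟨M, hM, G₀, G₁, hd, hu, h0, h1⟩ := hG
    let F : G →g G' := ⟨f, fun {u v} huv => hfG u v huv⟩
    let g : Option V → Option V' := Option.map f
    have hg : Injective g := Option.map_injective hf
    -- the image of `grow G M` lies in `grow G' M'`
    have hgrow : ∀ u v, (grow G M).Adj u v → (grow G' (M.map F)).Adj (g u) (g v) := by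
      rintro (_ | u) (_ | v) huv
      · exact huv
      · exact ⟨v, huv, rfl⟩
      · exact ⟨u, huv, rfl⟩
      · refine ⟨hfG u v huv.1, ?_⟩
        rintro ⟨u', v', h', hu', hv'⟩
        obtain rfl := hf hu'
        obtain rfl := hf hv'
        exact huv.2 h'
    have h0le : G₀ ≤ grow G M := hu ▸ le_sup_left
    have h1le : G₁ ≤ grow G M := hu ▸ le_sup_right
    let G₀' : SimpleGraph (Option V') := G₀.map g
    refine ⟨M.map F, hM.map F hf, G₀', grow G' (M.map F) \ G₀', disjoint_sdiff_self_right, ?_,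
      ih ?_ h0, ih ?_ h1⟩
    · apply sup_sdiff_cancel_right
      rintro a b ⟨-, u, v, huv, rfl, rfl⟩
      exact hgrow _ _ (h0le huv)
    · exact ⟨g, hg, fun u v huv => ⟨fun h => huv.ne (hg h), u, v, huv, rfl, rfl⟩⟩
    · refine ⟨g, hg, fun u v huv => ⟨hgrow _ _ (h1le huv), ?_⟩⟩
      rintro ⟨-, u', v', h', hu', hv'⟩
      obtain rfl := hg hu'
      obtain rfl := hg hv'
      have := (SimpleGraph.disjoint_left.1 hd) _ _ h'
      exact this huv

/-- One round, when the intermediate graph contains edge-disjoint copies of two winning graphs. -/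
theorem canForce_step {α : Type} (H : SimpleGraph α) (t : ℕ) {V A B : Type} (G : SimpleGraph V)
    (M : G.Subgraph) (hM : M.IsMatching) (GA : SimpleGraph A) (GB : SimpleGraph B)
    (f : A → Option V) (g : B → Option V) (hf : Injective f) (hg : Injective g)
    (hfA : ∀ a a', GA.Adj a a' → (grow G M).Adj (f a) (f a'))
    (hgB : ∀ b b', GB.Adj b b' → (grow G M).Adj (g b) (g b'))
    (hd : ∀ a a' b b', GA.Adj a a' → GB.Adj b b' → f a = g b → f a' = g b' → False)
    (hA : CanForce H t A GA) (hB : CanForce H t B GB) : CanForce H (t + 1) V G := by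
  refine ⟨M, hM, GA.map f, grow G M \ GA.map f, disjoint_sdiff_self_right, ?_,
    canForce_mono H t ?_ hA, canForce_mono H t ?_ hB⟩
  · apply sup_sdiff_cancel_right
    rintro a b ⟨-, u, v, huv, rfl, rfl⟩
    exact hfA _ _ huv
  · exact ⟨f, hf, fun u v huv => ⟨fun h => huv.ne (hf h), u, v, huv, rfl, rfl⟩⟩
  · refine ⟨g, hg, fun u v huv => ⟨hgB _ _ huv, ?_⟩⟩
    rintro ⟨-, u', v', h', hu', hv'⟩
    exact hd u' v' u v h' huv hu' hv'

/-! ## The reduced game

In the reduced game a round adds a new vertex joined to all vertices, and Builder then provides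
two edge-disjoint subgraphs of the resulting graph. -/

/-- `H` together with a new vertex joined to all vertices. -/
def cone {W : Type} (H : SimpleGraph W) : SimpleGraph (Option W) where
  Adj
    | some u, some v => H.Adj u v
    | some _, none => True
    | none, some _ => True
    | none, none => False
  symm := ⟨by
    rintro (_ | u) (_ | v) h
    · exact h
    · exact h
    · exact h
    · exact H.symm.symm _ _ h⟩
  loopless := ⟨by
    rintro (_ | u) h
    · exact h
    · exact H.loopless.irrefl _ h⟩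

/-- Builder can force `K_a` in the reduced game in `t` rounds. -/
def Red (a : ℕ) : ℕ → ∀ W : Type, SimpleGraph W → Prop
  | 0, _, H => Emb (⊤ : SimpleGraph (Fin a)) H
  | t + 1, W, H => ∃ H₀ H₁ : SimpleGraph (Option W), Disjoint H₀ H₁ ∧ H₀ ≤ cone H ∧
      H₁ ≤ cone H ∧ Red a t (Option W) H₀ ∧ Red a t (Option W) H₁

theorem red_mono (a : ℕ) : ∀ (t : ℕ) {W W' : Type} {H : SimpleGraph W} {H' : SimpleGraph W'},
    Emb H H' → Red a t W H → Red a t W' H' := by
  intro t
  induction t with
  | zero =>
    intro W W' H H' h hH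
    exact Emb.trans hH h
  | succ t ih =>
    intro W W' H H' h hH
    obtain ⟨f, hf, hfH⟩ := h
    obtain ⟨H₀, H₁, hd, h0, h1, r0, r1⟩ := hH
    let g : Option W → Option W' := Option.map f
    have hg : Injective g := Option.map_injective hf
    have hcone : ∀ u v, (cone H).Adj u v → (cone H').Adj (g u) (g v) := by
      rintro (_ | u) (_ | v) huv
      · exact huv
      · exact huv
      · exact huv
      · exact hfH u v huv
    refine ⟨H₀.map g, H₁.map g, ?_, ?_, ?_, ih ?_ r0, ih ?_ r1⟩
    · rw [SimpleGraph.disjoint_left]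
      rintro a b ⟨-, u, v, huv, rfl, rfl⟩ ⟨-, u', v', h', hu', hv'⟩
      obtain rfl := hg hu'
      obtain rfl := hg hv'
      exact (SimpleGraph.disjoint_left.1 hd) _ _ huv h'
    · rintro a b ⟨-, u, v, huv, rfl, rfl⟩
      exact hcone _ _ (h0 huv)
    · rintro a b ⟨-, u, v, huv, rfl, rfl⟩
      exact hcone _ _ (h1 huv)
    · exact ⟨g, hg, fun u v huv => ⟨fun h => huv.ne (hg h), u, v, huv, rfl, rfl⟩⟩
    · exact ⟨g, hg, fun u v huv => ⟨fun h => huv.ne (hg h), u, v, huv, rfl, rfl⟩⟩

theorem red_step (a t : ℕ) {W A B : Type} (H : SimpleGraph W)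
    (GA : SimpleGraph A) (GB : SimpleGraph B)
    (f : A → Option W) (g : B → Option W) (hf : Injective f) (hg : Injective g)
    (hfA : ∀ a a', GA.Adj a a' → (cone H).Adj (f a) (f a'))
    (hgB : ∀ b b', GB.Adj b b' → (cone H).Adj (g b) (g b'))
    (hd : ∀ a a' b b', GA.Adj a a' → GB.Adj b b' → f a = g b → f a' = g b' → False)
    (hA : Red a t A GA) (hB : Red a t B GB) : Red a (t + 1) W H := by
  refine ⟨GA.map f, GB.map g, ?_, ?_, ?_, red_mono a t ?_ hA, red_mono a t ?_ hB⟩
  · rw [SimpleGraph.disjoint_left]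
    rintro x y ⟨-, u, v, huv, rfl, rfl⟩ ⟨-, u', v', h', hu', hv'⟩
    exact hd u v u' v' huv h' hu'.symm hv'.symm
  · rintro x y ⟨-, u, v, huv, rfl, rfl⟩
    exact hfA _ _ huv
  · rintro x y ⟨-, u, v, huv, rfl, rfl⟩
    exact hgB _ _ huv
  · exact ⟨f, hf, fun u v huv => ⟨fun h => huv.ne (hf h), u, v, huv, rfl, rfl⟩⟩
  · exact ⟨g, hg, fun u v huv => ⟨fun h => huv.ne (hg h), u, v, huv, rfl, rfl⟩⟩

/-! ## Simulation of the reduced game in the real game -/

/-- `H` with a set `P` of pendant vertices at every vertex, and a matching indexed by `Q`. -/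
def pend {W : Type} (H : SimpleGraph W) (P Q : Type) :
    SimpleGraph (W ⊕ ((W × P) ⊕ (Q × Bool))) where
  Adj
    | .inl u, .inl v => H.Adj u v
    | .inl u, .inr (.inl w) => u = w.1
    | .inr (.inl w), .inl u => u = w.1
    | .inr (.inr x), .inr (.inr y) => x.1 = y.1 ∧ x.2 ≠ y.2
    | _, _ => False
  symm := ⟨by
    rintro (u | w | x) (v | w' | y) h
    · exact H.symm.symm _ _ h
    · exact h
    · exact h
    · exact h
    · exact h
    · exact h
    · exact h
    · exact h
    · exact ⟨h.1.symm, h.2.symm⟩⟩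
  loopless := ⟨by
    rintro (u | w | x) h
    · exact H.loopless.irrefl _ h
    · exact h
    · exact h.2 rfl⟩

/-- The matching used in one round. -/
def roundMatching {W : Type} (H : SimpleGraph W) (P Q : Type) :
    (pend H (Option P) (P ⊕ Q)).Subgraph where
  verts := fun z => match z with
    | .inl _ => True
    | .inr (.inl w) => w.2 = none
    | .inr (.inr x) => ∃ p : P, x.1 = .inl p
  Adj := fun z z' => match z, z' with
    | .inl u, .inr (.inl w) => u = w.1 ∧ w.2 = none
    | .inr (.inl w), .inl u => u = w.1 ∧ w.2 = none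
    | .inr (.inr x), .inr (.inr y) => x.1 = y.1 ∧ x.2 ≠ y.2 ∧ ∃ p : P, x.1 = .inl p
    | _, _ => False
  adj_sub := by
    rintro (u | w | x) (v | w' | y) h
    · exact h.elim
    · exact h.1
    · exact h.elim
    · exact h.1
    · exact h.elim
    · exact h.elim
    · exact h.elim
    · exact h.elim
    · exact ⟨h.1, h.2.1⟩
  edge_vert := by
    rintro (u | w | x) (v | w' | y) h
    · trivial
    · trivial
    · trivial
    · exact h.2
    · exact h.elim
    · exact h.elim
    · exact h.elim
    · exact h.elim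
    · exact h.2.2
  symm := ⟨by
    rintro (u | w | x) (v | w' | y) h
    · exact h
    · exact h
    · exact h
    · exact h
    · exact h
    · exact h
    · exact h
    · exact h
    · exact ⟨h.1.symm, h.2.1.symm, h.1 ▸ h.2.2⟩⟩

theorem roundMatching_isMatching {W : Type} (H : SimpleGraph W) (P Q : Type) :
    (roundMatching H P Q).IsMatching := by
  rintro (u | w | x) hz
  · refine ⟨.inr (.inl (u, none)), ⟨rfl, rfl⟩, ?_⟩
    rintro (v | w' | y) h
    · exact h.elim
    · obtain ⟨h1, h2⟩ := h
      obtain ⟨a, b⟩ := w'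
      simp only at h1 h2
      rw [h1, h2]
    · exact h.elim
  · refine ⟨.inl w.1, ⟨rfl, hz⟩, ?_⟩
    rintro (v | w' | y) h
    · obtain ⟨h1, h2⟩ := h
      rw [h1]
    · exact h.elim
    · exact h.elim
  · refine ⟨.inr (.inr (x.1, !x.2)), ⟨rfl, by simp, hz⟩, ?_⟩
    rintro (v | w' | y) h
    · exact h.elim
    · exact h.elim
    · obtain ⟨h1, h2, h3⟩ := h
      obtain ⟨a, b⟩ := y
      obtain ⟨c, d⟩ := x
      simp only at h1 h2 ⊢
      subst h1
      cases b <;> cases d <;> simp_all

/-- The types of pendant vertices needed for `t` rounds. -/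
def PT : ℕ → Type
  | 0 => Empty
  | t + 1 => Option (PT t ⊕ PT t)

/-- The types of matching edges needed for `t` rounds. -/
def QT : ℕ → Type
  | 0 => Empty
  | t + 1 => (PT t ⊕ PT t) ⊕ (QT t ⊕ QT t)

theorem finite_PT : ∀ t, Finite (PT t)
  | 0 => inferInstanceAs (Finite Empty)
  | t + 1 => by
    have := finite_PT t
    exact inferInstanceAs (Finite (Option (PT t ⊕ PT t)))

theorem finite_QT : ∀ t, Finite (QT t)
  | 0 => inferInstanceAs (Finite Empty)
  | t + 1 => by
    have := finite_PT t
    have := finite_QT t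
    exact inferInstanceAs (Finite ((PT t ⊕ PT t) ⊕ (QT t ⊕ QT t)))

/-- The embedding used for the two copies. -/
def copyMap {W P Q P' Q' : Type} (ip : P → P') (iq : Q → Q') :
    (Option W ⊕ ((Option W × P) ⊕ (Q × Bool))) →
      Option (W ⊕ ((W × Option P') ⊕ ((P' ⊕ Q') × Bool)))
  | .inl none => none
  | .inl (some u) => some (.inl u)
  | .inr (.inl (some u, x)) => some (.inr (.inl (u, some (ip x))))
  | .inr (.inl (none, x)) => some (.inr (.inr (.inl (ip x), false)))
  | .inr (.inr (y, b)) => some (.inr (.inr (.inr (iq y), b)))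

theorem copyMap_injective {W P Q P' Q' : Type} {ip : P → P'} {iq : Q → Q'}
    (hp : Injective ip) (hq : Injective iq) :
    Injective (copyMap (W := W) ip iq) := by
  rintro ((_ | u) | ⟨(_ | u), x⟩ | ⟨y, b⟩) ((_ | u') | ⟨(_ | u'), x'⟩ | ⟨y', b'⟩) h <;>
    simp [copyMap] at h ⊢
  · exact h
  · exact hp h
  · exact ⟨h.1, hp h.2⟩
  · exact ⟨hq h.1, h.2⟩

theorem copyMap_grow {W P Q P' Q' : Type} {H : SimpleGraph W} {H₀ : SimpleGraph (Option W)}
    (h0 : H₀ ≤ cone H) (ip : P → P') (iq : Q → Q')
    (a a' : Option W ⊕ ((Option W × P) ⊕ (Q × Bool))) (h : (pend H₀ P Q).Adj a a') :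
    (grow (pend H (Option P') (P' ⊕ Q')) (roundMatching H P' Q')).Adj
      (copyMap ip iq a) (copyMap ip iq a') := by
  rcases a with ((_ | u) | ⟨(_ | u), x⟩ | ⟨y, b⟩) <;>
    rcases a' with ((_ | u') | ⟨(_ | u'), x'⟩ | ⟨y', b'⟩)
  · exact absurd h (H₀.loopless.irrefl _)
  · exact trivial
  · exact ⟨_, rfl⟩
  · simp [pend] at h
  · simp [pend] at h
  · exact trivial
  · exact ⟨h0 h, fun h' => h'⟩
  · simp [pend] at h
  · have : u = u' := by simpa [pend] using h
    subst this
    exact ⟨rfl, by simp [roundMatching]⟩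
  · simp [pend] at h
  · exact ⟨_, rfl⟩
  · simp [pend] at h
  · simp [pend] at h
  · simp [pend] at h
  · simp [pend] at h
  · simp [pend] at h
  · have : u' = u := by simpa [pend] using h
    subst this
    exact ⟨rfl, by simp [roundMatching]⟩
  · simp [pend] at h
  · simp [pend] at h
  · simp [pend] at h
  · simp [pend] at h
  · simp [pend] at h
  · simp [pend] at h
  · simp [pend] at h
  · have h' : y = y' ∧ b ≠ b' := h
    obtain ⟨rfl, hb⟩ := h'
    exact ⟨⟨rfl, hb⟩, by simp [roundMatching]⟩

theorem copyMap_eq {W P Q : Type} {x y : Option W ⊕ ((Option W × P) ⊕ (Q × Bool))}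
    (h : copyMap (P' := P ⊕ P) (Q' := Q ⊕ Q) Sum.inl Sum.inl x = copyMap Sum.inr Sum.inr y) :
    ∃ o, x = Sum.inl o ∧ y = Sum.inl o := by
  rcases x with ((_ | u) | ⟨(_ | u), x₁⟩ | ⟨x₂, b⟩) <;>
    rcases y with ((_ | u') | ⟨(_ | u'), y₁⟩ | ⟨y₂, b'⟩) <;> simp [copyMap] at h ⊢
  exact h.symm

theorem simulate (a : ℕ) : ∀ (t : ℕ) {W : Type} (H : SimpleGraph W), Red a t W H →
    CanForce (⊤ : SimpleGraph (Fin a)) t _ (pend H (PT t) (QT t)) := by
  intro t
  induction t with
  | zero =>
    intro W H h
    apply Emb.isContained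
    exact h.trans ⟨Sum.inl, Sum.inl_injective, fun u v huv => huv⟩
  | succ t ih =>
    intro W H h
    obtain ⟨H₀, H₁, hd, h0, h1, r0, r1⟩ := h
    refine canForce_step _ t (pend H (Option (PT t ⊕ PT t)) ((PT t ⊕ PT t) ⊕ (QT t ⊕ QT t)))
      (roundMatching H (PT t ⊕ PT t) (QT t ⊕ QT t)) (roundMatching_isMatching _ _ _)
      (pend H₀ (PT t) (QT t)) (pend H₁ (PT t) (QT t)) (copyMap Sum.inl Sum.inl)
      (copyMap Sum.inr Sum.inr) (copyMap_injective Sum.inl_injective Sum.inl_injective)
      (copyMap_injective Sum.inr_injective Sum.inr_injective)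
      (copyMap_grow h0 _ _) (copyMap_grow h1 _ _) ?_ (ih H₀ r0) (ih H₁ r1)
    intro x x' y y' h h' e e'
    obtain ⟨o, rfl, rfl⟩ := copyMap_eq e
    obtain ⟨o', rfl, rfl⟩ := copyMap_eq e'
    exact (SimpleGraph.disjoint_left.1 hd) _ _ h h'

/-! ## Adding levels in the reduced game -/

/-- The vertices of the lower levels: level `i : ι`, and a position in the level. -/
def NT : ℕ → Type
  | 0 => Unit
  | t + 1 => NT t ⊕ NT t

theorem card_NT : ∀ t, Nat.card (NT t) = 2 ^ t ∧ Finite (NT t)
  | 0 => ⟨by show Nat.card Unit = 1; simp, inferInstanceAs (Finite Unit)⟩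
  | t + 1 => by
    obtain ⟨h, h'⟩ := card_NT t
    refine ⟨?_, inferInstanceAs (Finite (NT t ⊕ NT t))⟩
    show Nat.card (NT t ⊕ NT t) = 2 ^ (t + 1)
    rw [Nat.card_sum, h]
    ring

/-- The join of the complete multipartite graph with parts `{i} × N` and of `H`. -/
def levels (ι N : Type) {W : Type} (H : SimpleGraph W) : SimpleGraph ((ι × N) ⊕ W) where
  Adj
    | .inl x, .inl y => x.1 ≠ y.1
    | .inl _, .inr _ => True
    | .inr _, .inl _ => True
    | .inr u, .inr v => H.Adj u v
  symm := ⟨by
    rintro (x | u) (y | v) h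
    · exact Ne.symm h
    · exact h
    · exact h
    · exact H.symm.symm _ _ h⟩
  loopless := ⟨by
    rintro (x | u) h
    · exact h rfl
    · exact H.loopless.irrefl _ h⟩

/-- The map of the vertices used in one round. -/
def levelMap {ι N N' W : Type} (i : N → N') : (ι × N) ⊕ Option W → Option ((ι × N') ⊕ W)
  | .inl x => some (.inl (x.1, i x.2))
  | .inr none => none
  | .inr (some u) => some (.inr u)

theorem levelMap_injective {ι N N' W : Type} {i : N → N'} (hi : Injective i) :
    Injective (levelMap (ι := ι) (W := W) i) := by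
  rintro (⟨x, y⟩ | (_ | u)) (⟨x', y'⟩ | (_ | u')) h <;> simp [levelMap] at h ⊢
  · exact ⟨h.1, hi h.2⟩
  · exact h

theorem levelMap_cone {ι N N' W : Type} (i : N → N') {H : SimpleGraph W}
    {H₀ : SimpleGraph (Option W)} (h0 : H₀ ≤ cone H) (a a' : (ι × N) ⊕ Option W)
    (h : (levels ι N H₀).Adj a a') :
    (cone (levels ι N' H)).Adj (levelMap i a) (levelMap i a') := by
  rcases a with (⟨x, y⟩ | (_ | u)) <;> rcases a' with (⟨x', y'⟩ | (_ | u'))
  · exact h
  · trivial
  · trivial
  · trivial
  · exact absurd h (H₀.loopless.irrefl _)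
  · trivial
  · trivial
  · trivial
  · exact h0 h

theorem levelMap_eq {ι N W : Type} {x y : (ι × N) ⊕ Option W}
    (h : levelMap (N' := N ⊕ N) Sum.inl x = levelMap Sum.inr y) :
    ∃ o, x = Sum.inr o ∧ y = Sum.inr o := by
  rcases x with (⟨x₁, x₂⟩ | (_ | u)) <;> rcases y with (⟨y₁, y₂⟩ | (_ | u')) <;>
    simp [levelMap] at h ⊢
  exact h.symm

/-- Playing with `j` additional lower levels. -/
theorem red_levels (a j : ℕ) : ∀ (t : ℕ) {W : Type} (H : SimpleGraph W), Red a t W H →
    Red (j + a) t _ (levels (Fin j) (NT t) H) := by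
  intro t
  induction t with
  | zero =>
    intro W H h
    obtain ⟨f, hf, hfH⟩ := h
    refine ⟨fun x => if h : x.val < j then .inl (⟨x.val, h⟩, ()) else
      .inr (f ⟨x.val - j, by omega⟩), ?_, ?_⟩
    · intro x y hxy
      by_cases hx : x.val < j <;> by_cases hy : y.val < j <;> simp [hx, hy] at hxy
      · exact Fin.ext hxy
      · have := hf hxy
        simp only [Fin.mk.injEq] at this
        apply Fin.ext
        omega
    · intro x y hxy
      have hne : x ≠ y := hxy
      by_cases hx : x.val < j <;> by_cases hy : y.val < j <;> simp only [hx, hy, dif_pos, dif_neg,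
        not_false_eq_true]
      · intro he
        apply hne
        simp only [Fin.mk.injEq] at he
        exact Fin.ext he
      · trivial
      · trivial
      · apply hfH
        intro he
        apply hne
        simp only [Fin.mk.injEq] at he
        apply Fin.ext
        omega
  | succ t ih =>
    intro W H h
    obtain ⟨H₀, H₁, hd, h0, h1, r0, r1⟩ := h
    refine red_step _ t (levels (Fin j) (NT t ⊕ NT t) H) (levels (Fin j) (NT t) H₀)
      (levels (Fin j) (NT t) H₁) (levelMap Sum.inl) (levelMap Sum.inr)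
      (levelMap_injective Sum.inl_injective) (levelMap_injective Sum.inr_injective)
      (levelMap_cone _ h0) (levelMap_cone _ h1) ?_ (ih H₀ r0) (ih H₁ r1)
    intro x x' y y' h h' e e'
    obtain ⟨o, rfl, rfl⟩ := levelMap_eq e
    obtain ⟨o', rfl, rfl⟩ := levelMap_eq e'
    exact (SimpleGraph.disjoint_left.1 hd) _ _ h h'

/-- Rounds in which only isolated vertices are collected. -/
theorem red_bot (a t : ℕ) : ∀ (n m : ℕ), Red a t (Fin (m + n)) ⊥ → Red a (t + n) (Fin m) ⊥ := by
  intro n
  induction n with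
  | zero => intro m h; exact h
  | succ n ih =>
    intro m h
    have h' : Red a (t + n) (Fin (m + 1)) ⊥ := ih (m + 1) (by
      have e : m + 1 + n = m + (n + 1) := by ring
      rw [e]; exact h)
    refine ⟨⊥, ⊥, disjoint_bot_left, bot_le, bot_le, ?_, ?_⟩ <;>
    · refine red_mono a (t + n) ?_ h'
      exact ⟨(finSuccEquiv m), (finSuccEquiv m).injective, fun u v huv => huv.elim⟩

/-- The number of rounds grows like `T ↦ T + 2 ^ T`. -/
theorem red_next (a T : ℕ) (h : Red a T (Fin 0) ⊥) : Red (1 + a) (T + 2 ^ T) (Fin 0) ⊥ := by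
  have h1 := red_levels a 1 T _ h
  apply red_bot (1 + a) T (2 ^ T) 0
  refine red_mono (1 + a) T ?_ h1
  obtain ⟨hc, hf⟩ := card_NT T
  have e : Nat.card ((Fin 1 × NT T) ⊕ Fin 0) = 0 + 2 ^ T := by
    rw [Nat.card_sum, Nat.card_prod, hc]; simp
  let φ := (Finite.equivFinOfCardEq e)
  refine ⟨φ, φ.injective, ?_⟩
  rintro (x | u) (y | v) huv
  · exact absurd (Subsingleton.elim x.1 y.1) huv
  · exact v.elim0
  · exact u.elim0
  · exact u.elim0

/-! ## Forcing a triangle in six rounds of the reduced game -/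

instance {W : Type} (H : SimpleGraph W) [DecidableRel H.Adj] : DecidableRel (cone H).Adj
  | some u, some v => inferInstanceAs (Decidable (H.Adj u v))
  | some _, none => isTrue trivial
  | none, some _ => isTrue trivial
  | none, none => isFalse (fun h => h)

/-- Two disjoint edges `01`, `23`. -/
def gC : SimpleGraph (Fin 4) where
  Adj x y := x ≠ y ∧ x.val / 2 = y.val / 2
  symm := ⟨fun _ _ h => ⟨h.1.symm, h.2.symm⟩⟩
  loopless := ⟨fun _ h => h.1 rfl⟩

/-- The path `0 - 1 - 2`. -/
def gB : SimpleGraph (Fin 3) where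
  Adj x y := (x = 1 ∧ y ≠ 1) ∨ (x ≠ 1 ∧ y = 1)
  symm := ⟨fun _ _ h => h.elim (fun h => Or.inr ⟨h.2, h.1⟩) (fun h => Or.inl ⟨h.2, h.1⟩)⟩
  loopless := ⟨fun _ h => h.elim (fun h => h.2 h.1) (fun h => h.1 h.2)⟩

/-- An edge `01` and an isolated vertex `2`. -/
def gA : SimpleGraph (Fin 3) where
  Adj x y := x ≠ y ∧ x ≠ 2 ∧ y ≠ 2
  symm := ⟨fun _ _ h => ⟨h.1.symm, h.2.2, h.2.1⟩⟩
  loopless := ⟨fun _ h => h.1 rfl⟩

instance : DecidableRel gA.Adj := fun x y => inferInstanceAs (Decidable (x ≠ y ∧ x ≠ 2 ∧ y ≠ 2))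
instance : DecidableRel gB.Adj := fun x y =>
  inferInstanceAs (Decidable ((x = 1 ∧ y ≠ 1) ∨ (x ≠ 1 ∧ y = 1)))
instance : DecidableRel gC.Adj := fun x y =>
  inferInstanceAs (Decidable (x ≠ y ∧ x.val / 2 = y.val / 2))

theorem red_three_one : Red 3 1 (Fin 4) gC := by
  refine red_step 3 0 gC (⊤ : SimpleGraph (Fin 3)) (⊤ : SimpleGraph (Fin 3))
    ![some 0, some 1, none] ![some 2, some 3, none] ?_ ?_ ?_ ?_ ?_ (Emb.refl _) (Emb.refl _)
  all_goals decide

theorem red_three_two : Red 3 2 (Fin 3) gB := by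
  refine red_step 3 1 gB gC gC
    ![some 0, some 1, none, some 2] ![some 1, some 2, none, some 0] ?_ ?_ ?_ ?_ ?_
    red_three_one red_three_one
  all_goals decide

theorem red_three_three : Red 3 3 (Fin 3) gA := by
  refine red_step 3 2 gA gB gB
    ![some 1, some 0, none] ![some 1, none, some 2] ?_ ?_ ?_ ?_ ?_
    red_three_two red_three_two
  all_goals decide

theorem red_three_four : Red 3 4 (Fin 2) ⊥ := by
  refine red_step 3 3 ⊥ gA gA
    ![none, some 0, some 1] ![none, some 1, some 0] ?_ ?_ ?_ ?_ ?_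
    red_three_three red_three_three
  all_goals decide

theorem red_three : Red 3 6 (Fin 0) ⊥ := red_bot 3 4 2 0 red_three_four

theorem red_one : Red 1 1 (Fin 0) ⊥ := by
  refine red_bot 1 0 1 0 ?_
  exact ⟨id, injective_id, fun u v huv => absurd (Subsingleton.elim u v) huv⟩

theorem red_upper : ∀ a : ℕ, Red (a + 1) (upper (a + 3)) (Fin 0) ⊥
  | 0 => red_one
  | 1 => red_next 1 1 red_one
  | 2 => red_three
  | a + 3 => by
    have h := red_next _ _ (red_upper (a + 2))
    have e : 1 + (a + 2 + 1) = a + 3 + 1 := by ring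
    rw [e] at h
    exact h

theorem rho_le_upper (a : ℕ) : rho (a + 3) ≤ upper (a + 3) := by
  have h1 := red_levels (a + 1) 2 _ _ (red_upper a)
  have h2 := simulate _ _ _ h1
  have e : 2 + (a + 1) = a + 3 := by ring
  rw [e] at h2
  have f1 := (card_NT (upper (a + 3))).2
  have f2 := finite_PT (upper (a + 3))
  have f3 := finite_QT (upper (a + 3))
  refine iInf_le_of_le _ (iInf_le_of_le (inferInstance) (iInf_le_of_le _ (iInf_le_of_le ?_
    (iInf_le_of_le _ (iInf_le_of_le h2 le_rfl)))))
  -- the starting graph is bipartite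
  let c : (((Fin 2 × NT (upper (a + 3))) ⊕ Fin 0) ⊕
      (((((Fin 2 × NT (upper (a + 3))) ⊕ Fin 0) × PT (upper (a + 3)))) ⊕
        (QT (upper (a + 3)) × Bool))) → Bool := fun x => match x with
    | .inl (.inl x) => x.1 = 0
    | .inl (.inr u) => u.elim0
    | .inr (.inl (.inl x, _)) => !(decide (x.1 = 0))
    | .inr (.inl (.inr u, _)) => u.elim0
    | .inr (.inr x) => x.2
  have hc : ∀ x y, (pend (levels (Fin 2) (NT (upper (a + 3))) (⊥ : SimpleGraph (Fin 0)))
      (PT (upper (a + 3))) (QT (upper (a + 3)))).Adj x y → c x ≠ c y := by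
    rintro ((x | u) | ⟨(x | u), p⟩ | ⟨q, b⟩) ((y | v) | ⟨(y | v), p'⟩ | ⟨q', b'⟩) h
    · have h' : x.1 ≠ y.1 := h
      have : ∀ i j : Fin 2, i ≠ j → decide (i = 0) ≠ decide (j = 0) := by decide
      exact this _ _ h'
    · exact v.elim0
    · have h' : (Sum.inl x : (Fin 2 × NT (upper (a + 3))) ⊕ Fin 0) = Sum.inl y := h
      obtain rfl := Sum.inl_injective h'
      simp [c]
    · exact v.elim0
    · exact h.elim
    · exact u.elim0
    · exact u.elim0
    · exact u.elim0
    · exact u.elim0
    · exact u.elim0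
    · have h' : (Sum.inl y : (Fin 2 × NT (upper (a + 3))) ⊕ Fin 0) = Sum.inl x := h
      obtain rfl := Sum.inl_injective h'
      simp [c]
    · exact v.elim0
    · exact h.elim
    · exact v.elim0
    · exact h.elim
    · exact u.elim0
    · exact u.elim0
    · exact u.elim0
    · exact u.elim0
    · exact u.elim0
    · exact h.elim
    · exact v.elim0
    · exact h.elim
    · exact v.elim0
    · exact h.2
  have hcol : (pend (levels (Fin 2) (NT (upper (a + 3))) (⊥ : SimpleGraph (Fin 0)))
      (PT (upper (a + 3))) (QT (upper (a + 3)))).Colorable 2 := by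
    have C : (pend (levels (Fin 2) (NT (upper (a + 3))) (⊥ : SimpleGraph (Fin 0)))
      (PT (upper (a + 3))) (QT (upper (a + 3)))).Coloring Bool :=
      SimpleGraph.Coloring.mk c (fun {x y} h => hc x y h)
    have := C.colorable
    simpa using this
  exact hcol.cliqueFree (by norm_num)

/-! ## The lower bound: a strategy for Chooser

The rounds are divided into blocks; the last block has length `z 0 = 2`, the one before has length
`z 1 = 3`, and so on. Chooser always takes the class with fewer edges inside blocks. -/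

theorem z_pos : ∀ i, 2 ≤ z i
  | 0 => le_rfl
  | i + 1 => by
    have h := z_pos i
    have h2 : 2 ^ 2 ≤ 2 ^ z i := Nat.pow_le_pow_right (by norm_num) h
    show 2 ≤ 2 ^ z i - 1
    omega

/-- The edges inside a block. -/
def badE {V : Type} (G : SimpleGraph V) (lab : V → Option ℕ) : Set (Sym2 V) :=
  {e | e ∈ G.edgeSet ∧ ∃ l : ℕ, ∀ v ∈ e, lab v = some l}

/-- The invariant of the strategy of Chooser: `Z i + s` rounds remain, and there are `m` blocks. -/
structure Inv {V : Type} (m i s : ℕ) (G : SimpleGraph V) (lab : V → Option ℕ) : Prop where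
  tri : ∀ x y w, lab x = none → lab y = none → lab w = none → G.Adj x y → G.Adj y w →
    G.Adj x w → False
  bad : (badE G lab).ncard + s + 3 ≤ 2 ^ s + z i
  cnt : {v | lab v = some i}.ncard + s ≤ z i
  rng : ∀ v l, lab v = some l → i ≤ l ∧ l < m

theorem inv_final {V : Type} [Finite V] {m : ℕ} {G : SimpleGraph V} {lab : V → Option ℕ}
    (h : Inv m 0 0 G lab) : ¬ (⊤ : SimpleGraph (Fin (m + 3))).IsContained G := by
  classical
  rintro ⟨f⟩
  have hadj : ∀ x y : Fin (m + 3), x ≠ y → G.Adj (f x) (f y) := fun x y hxy => f.toHom.map_rel hxy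
  have hb : badE G lab = ∅ := by
    have h1 := h.bad
    have h2 : z 0 = 2 := rfl
    rw [h2] at h1
    have h3 : (badE G lab).ncard = 0 := by omega
    exact (Set.ncard_eq_zero (Set.toFinite _)).1 h3
  -- at most two of the vertices are original
  have hN : (Finset.univ.filter (fun x : Fin (m + 3) => lab (f x) = none)).card ≤ 2 := by
    by_contra hcard
    push Not at hcard
    obtain ⟨a, b, c, ha, hb', hc, hab, hac, hbc⟩ := Finset.two_lt_card_iff.1 hcard
    simp only [Finset.mem_filter, Finset.mem_univ, true_and] at ha hb' hc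
    exact h.tri _ _ _ ha hb' hc (hadj _ _ hab) (hadj _ _ hbc) (hadj _ _ hac)
  -- at most one vertex of each block
  have hS : (Finset.univ.filter (fun x : Fin (m + 3) => ¬ lab (f x) = none)).card ≤ m := by
    have := Finset.card_le_card_of_injOn (s := Finset.univ.filter
      (fun x : Fin (m + 3) => ¬ lab (f x) = none)) (t := Finset.range m)
      (fun x => (lab (f x)).getD 0) ?_ ?_
    · simpa using this
    · intro x hx
      simp only [Finset.coe_filter, Finset.mem_univ, true_and, Set.mem_ofPred_eq] at hx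
      obtain ⟨l, hl⟩ := Option.ne_none_iff_exists'.1 hx
      simp only [hl, Option.getD_some, Finset.coe_range, Set.mem_Iio]
      exact (h.rng _ _ hl).2
    · intro x hx y hy hxy
      simp only [Finset.coe_filter, Finset.mem_univ, true_and, Set.mem_ofPred_eq] at hx hy
      obtain ⟨l, hl⟩ := Option.ne_none_iff_exists'.1 hx
      obtain ⟨l', hl'⟩ := Option.ne_none_iff_exists'.1 hy
      simp only [hl, hl', Option.getD_some] at hxy
      by_contra hne
      have hmem : s(f x, f y) ∈ badE G lab := by
        refine ⟨hadj _ _ hne, l, ?_⟩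
        intro v hv
        rcases Sym2.mem_iff.1 hv with rfl | rfl
        · exact hl
        · rw [hl', hxy]
      rw [hb] at hmem
      exact hmem
  have hsum := Finset.card_filter_add_card_filter_not (s := (Finset.univ : Finset (Fin (m + 3))))
    (fun x => lab (f x) = none)
  rw [Finset.card_univ, Fintype.card_fin] at hsum
  omega

/-- The labels after a round in block `i`. -/
def newLab {V : Type} (lab : V → Option ℕ) (i : ℕ) : Option V → Option ℕ
  | none => some i
  | some v => lab v

theorem badE_grow {V : Type} {G : SimpleGraph V} {lab : V → Option ℕ} (i : ℕ) (M : G.Subgraph) :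
    badE (grow G M) (newLab lab i) ⊆ (Sym2.map some '' badE G lab) ∪
      ((fun v : V => s((none : Option V), some v)) '' {v | lab v = some i}) := by
  intro e he
  induction e using Sym2.ind with
  | _ x y =>
    obtain ⟨hadj, l, hl⟩ := he
    have hx := hl x (Sym2.mem_mk_left x y)
    have hy := hl y (Sym2.mem_mk_right x y)
    rcases x with (_ | u) <;> rcases y with (_ | v)
    · exact hadj.elim
    · right
      refine ⟨v, ?_, rfl⟩
      have h1 : some i = some l := hx
      show lab v = some i
      rw [h1]; exact hy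
    · right
      refine ⟨u, ?_, Sym2.eq_swap⟩
      have h1 : some i = some l := hy
      show lab u = some i
      rw [h1]; exact hx
    · left
      refine ⟨s(u, v), ⟨hadj.1, l, ?_⟩, rfl⟩
      intro w hw
      rcases Sym2.mem_iff.1 hw with rfl | rfl
      · exact hx
      · exact hy

theorem inv_step {V : Type} [Finite V] {m i s : ℕ} {G : SimpleGraph V} {lab : V → Option ℕ}
    (him : i < m) (h : Inv m i (s + 1) G lab) (M : G.Subgraph) (G₀ G₁ : SimpleGraph (Option V))
    (hd : Disjoint G₀ G₁) (hu : G₀ ⊔ G₁ = grow G M) :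
    Inv m i s G₀ (newLab lab i) ∨ Inv m i s G₁ (newLab lab i) := by
  have h0 : G₀ ≤ grow G M := hu ▸ le_sup_left
  have h1 : G₁ ≤ grow G M := hu ▸ le_sup_right
  have key : ∀ G' : SimpleGraph (Option V), G' ≤ grow G M →
      (badE G' (newLab lab i)).ncard + s + 3 ≤ 2 ^ s + z i → Inv m i s G' (newLab lab i) := by
    intro G' hG' hbad
    refine ⟨?_, hbad, ?_, ?_⟩
    · rintro (_ | x) (_ | y) (_ | w) hx hy hw hxy hyw hxw
      · exact absurd hx (by simp [newLab])
      · exact absurd hx (by simp [newLab])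
      · exact absurd hx (by simp [newLab])
      · exact absurd hx (by simp [newLab])
      · exact absurd hy (by simp [newLab])
      · exact absurd hy (by simp [newLab])
      · exact absurd hw (by simp [newLab])
      · exact h.tri x y w hx hy hw (hG' hxy).1 (hG' hyw).1 (hG' hxw).1
    · have hsub : {v | newLab lab i v = some i} ⊆
          insert none (some '' {v | lab v = some i}) := by
        rintro (_ | v) hv
        · exact Set.mem_insert _ _
        · exact Set.mem_insert_of_mem _ ⟨v, hv, rfl⟩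
      have h2 := Set.ncard_le_ncard hsub (Set.toFinite _)
      have h3 := Set.ncard_insert_le (none : Option V) (some '' {v | lab v = some i})
      have h4 := Set.ncard_image_le (f := (some : V → Option V)) (Set.toFinite {v | lab v = some i})
      have h5 := h.cnt
      omega
    · rintro (_ | v) l hl
      · have : i = l := by simpa [newLab] using hl
        omega
      · exact h.rng v l hl
  have hun : badE G₀ (newLab lab i) ∪ badE G₁ (newLab lab i) ⊆
      badE (grow G M) (newLab lab i) := by
    rintro e (⟨he, hl⟩ | ⟨he, hl⟩)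
    · exact ⟨SimpleGraph.edgeSet_mono h0 he, hl⟩
    · exact ⟨SimpleGraph.edgeSet_mono h1 he, hl⟩
  have hdj : Disjoint (badE G₀ (newLab lab i)) (badE G₁ (newLab lab i)) := by
    rw [Set.disjoint_left]
    intro e he he'
    induction e using Sym2.ind with
    | _ x y => exact (SimpleGraph.disjoint_left.1 hd) _ _ he.1 he'.1
  have c1 := Set.ncard_union_eq hdj (Set.toFinite _) (Set.toFinite _)
  have c2 := Set.ncard_le_ncard hun (Set.toFinite _)
  have c3 := Set.ncard_le_ncard (badE_grow (lab := lab) i M) (Set.toFinite _)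
  have c4 := Set.ncard_union_le (Sym2.map some '' badE G lab)
    ((fun v : V => s((none : Option V), some v)) '' {v | lab v = some i})
  have c5 := Set.ncard_image_le (f := Sym2.map (some : V → Option V)) (Set.toFinite (badE G lab))
  have c6 := Set.ncard_image_le (f := fun v : V => s((none : Option V), some v))
    (Set.toFinite {v | lab v = some i})
  have c7 := h.bad
  have c8 := h.cnt
  have c9 : 2 ^ (s + 1) = 2 * 2 ^ s := by ring
  by_cases hc : (badE G₀ (newLab lab i)).ncard + s + 3 ≤ 2 ^ s + z i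
  · exact Or.inl (key G₀ h0 hc)
  · right
    apply key G₁ h1
    omega

theorem inv_next {V : Type} [Finite V] {m i : ℕ} {G : SimpleGraph V} {lab : V → Option ℕ}
    (h : Inv m (i + 1) 0 G lab) : Inv m i (z i) G lab := by
  refine ⟨h.tri, ?_, ?_, ?_⟩
  · have h1 := h.bad
    have h2 : z (i + 1) = 2 ^ z i - 1 := rfl
    have h3 : 0 < 2 ^ z i := by positivity
    rw [h2] at h1
    omega
  · have : {v | lab v = some i} = ∅ := by
      ext v
      simp only [Set.mem_ofPred_eq, Set.mem_empty_iff_false, iff_false]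
      intro hv
      have := (h.rng v i hv).1
      omega
    rw [this]
    simp
  · intro v l hl
    have := h.rng v l hl
    omega

theorem chooser (m : ℕ) : ∀ (i s : ℕ), i ≤ m → (s = 0 ∨ i < m) → s ≤ z i →
    ∀ (V : Type) (_ : Finite V) (G : SimpleGraph V) (lab : V → Option ℕ), Inv m i s G lab →
    ¬ CanForce (⊤ : SimpleGraph (Fin (m + 3))) (Z i + s) V G := by
  intro i
  induction i with
  | zero =>
    intro s
    induction s with
    | zero =>
      intro _ _ _ V _ G lab h
      exact inv_final h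
    | succ s ihs =>
      intro _ him hs V _ G lab h hF
      have him' : 0 < m := by omega
      obtain ⟨M, hM, G₀, G₁, hd, hu, f0, f1⟩ := hF
      rcases inv_step him' h M G₀ G₁ hd hu with h' | h'
      · exact ihs (by omega) (Or.inr him') (by omega) _ inferInstance _ _ h' f0
      · exact ihs (by omega) (Or.inr him') (by omega) _ inferInstance _ _ h' f1
  | succ i ih =>
    intro s
    induction s with
    | zero =>
      intro him _ _ V _ G lab h
      exact ih (z i) (by omega) (Or.inr (by omega)) le_rfl V ‹_› G lab (inv_next h)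
    | succ s ihs =>
      intro _ him hs V _ G lab h hF
      have him' : i + 1 < m := by omega
      obtain ⟨M, hM, G₀, G₁, hd, hu, f0, f1⟩ := hF
      rcases inv_step him' h M G₀ G₁ hd hu with h' | h'
      · exact ihs (by omega) (Or.inr him') (by omega) _ inferInstance _ _ h' f0
      · exact ihs (by omega) (Or.inr him') (by omega) _ inferInstance _ _ h' f1

theorem split_time (m : ℕ) : ∀ t, t ≤ Z m → ∃ i s, t = Z i + s ∧ s ≤ z i ∧ i ≤ m ∧
    (s = 0 ∨ i < m) := by
  induction m with
  | zero =>
    intro t ht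
    have : t = 0 := by simpa [Z] using ht
    exact ⟨0, 0, by rw [this]; rfl, Nat.zero_le _, le_rfl, Or.inl rfl⟩
  | succ m ih =>
    intro t ht
    by_cases h : t ≤ Z m
    · obtain ⟨i, s, h1, h2, h3, h4⟩ := ih t h
      exact ⟨i, s, h1, h2, by omega, by omega⟩
    · have ht' : t ≤ Z m + z m := ht
      exact ⟨m, t - Z m, by omega, by omega, by omega, Or.inr (by omega)⟩

theorem lower_le (m t : ℕ) (V : Type) [Finite V] (G : SimpleGraph V) (hG : G.CliqueFree 3)
    (h : CanForce (⊤ : SimpleGraph (Fin (m + 3))) t V G) : 1 + Z m ≤ t := by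
  by_contra hlt
  obtain ⟨i, s, rfl, h2, h3, h4⟩ := split_time m t (by omega)
  refine chooser m i s h3 h4 h2 V inferInstance G (fun _ => none) ?_ h
  have hempty : badE G (fun _ => (none : Option ℕ)) = ∅ := by
    ext e
    simp only [Set.mem_empty_iff_false, iff_false]
    rintro ⟨-, l, hl⟩
    induction e using Sym2.ind with
    | _ x y => exact absurd (hl x (Sym2.mem_mk_left x y)) (by simp)
  refine ⟨?_, ?_, ?_, ?_⟩
  · intro x y w _ _ _ hxy hyw hxw
    classical
    exact hG {x, y, w} (SimpleGraph.is3Clique_triple_iff.2 ⟨hxy, hxw, hyw⟩)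
  · rw [hempty, Set.ncard_empty]
    have h5 : s + 1 ≤ 2 ^ s := Nat.lt_two_pow_self
    have h6 := z_pos i
    omega
  · have : {v : V | (none : Option ℕ) = some i} = ∅ := by
      ext v; simp
    rw [this, Set.ncard_empty]
    omega
  · intro v l hl
    exact absurd hl (by simp)

theorem tower_lt_z : ∀ i, tower i + 1 ≤ z i
  | 0 => le_rfl
  | i + 1 => by
    have h := tower_lt_z i
    show 2 ^ tower i + 1 ≤ 2 ^ z i - 1
    have h1 : 2 ^ (tower i + 1) ≤ 2 ^ z i := Nat.pow_le_pow_right (by norm_num) h
    have h2 : 2 ^ (tower i + 1) = 2 * 2 ^ tower i := by ring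
    have h3 : 2 ≤ 2 ^ tower i := by
      have : 1 ≤ tower i := by cases i <;> simp [tower, Nat.one_le_two_pow]
      calc 2 = 2 ^ 1 := rfl
        _ ≤ 2 ^ tower i := Nat.pow_le_pow_right (by norm_num) this
    omega

theorem tower_lt_lower (k : ℕ) (hk : 4 ≤ k) : tower (k - 4) < lower k := by
  obtain ⟨j, rfl⟩ := Nat.exists_eq_add_of_le hk
  have e1 : 4 + j - 4 = j := by omega
  have e2 : 4 + j - 3 = j + 1 := by omega
  rw [lower, e1, e2]
  have := tower_lt_z j
  show tower j < 1 + (Z j + z j)
  omega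

theorem upper_lt_tower : ∀ j : ℕ, upper (j + 2) + 1 ≤ tower j
  | 0 => by decide
  | 1 => by decide
  | 2 => by decide
  | 3 => by decide
  | j + 4 => by
    have h := upper_lt_tower (j + 3)
    have e : upper (j + 4 + 2) = upper (j + 5) + 2 ^ upper (j + 5) := rfl
    have e' : upper (j + 3 + 2) = upper (j + 5) := rfl
    rw [e]
    rw [e'] at h
    show upper (j + 5) + 2 ^ upper (j + 5) + 1 ≤ 2 ^ tower (j + 3)
    have h1 : 2 ^ (upper (j + 5) + 1) ≤ 2 ^ tower (j + 3) :=
      Nat.pow_le_pow_right (by norm_num) h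
    have h2 : 2 ^ (upper (j + 5) + 1) = 2 * 2 ^ upper (j + 5) := by ring
    have h3 : upper (j + 5) + 1 ≤ 2 ^ upper (j + 5) := Nat.lt_two_pow_self
    omega

end Pool.Agent.helper14.Tower
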